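import Mathlib

/-!
Abstract projective systems: unitaries `u g` on a Hilbert space with a tracial vector whose
orbit is orthonormal.
-/

namespace Pool.Agent.KS6_22.HF

open scoped InnerProductSpace ComplexConjugate
set_option linter.unusedSectionVars false
open Complex

variable {G : Type*} [Group G] {H : Type*} [NormedAddCommGroup H] [InnerProductSpace ℂ H]
  [CompleteSpace H]

/-- a projective system with a tracial vector -/
structure Sys (σ : G → G → ℂ) (u : G → H →L[ℂ] H) (δ : H) : Prop where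
  norm_δ : ‖δ‖ = 1
  norm_σ : ∀ g h, ‖σ g h‖ = 1
  one : u 1 = 1
  mul : ∀ g h, u g * u h = σ g h • u (g * h)
  iso : ∀ g ξ, ‖u g ξ‖ = ‖ξ‖
  orth : ∀ g, g ≠ 1 → ⟪δ, u g δ⟫_ℂ = 0

/-- the twisted group algebra -/
def Alg (u : G → H →L[ℂ] H) : Submodule ℂ (H →L[ℂ] H) := Submodule.span ℂ (Set.range u)

/-- the Fourier coefficient -/
noncomputable def hat (u : G → H →L[ℂ] H) (δ : H) (x : H →L[ℂ] H) (g : G) : ℂ := ⟪u g δ, x δ⟫_ℂ

lemma inner_star (x y : H →L[ℂ] H) (ξ η : H) : ⟪x ξ, y η⟫_ℂ = ⟪ξ, (star x * y) η⟫_ℂ := by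
  rw [ContinuousLinearMap.star_eq_adjoint, mul_apply_eq_comp,
    ContinuousLinearMap.adjoint_inner_right]

lemma inner_star' (x : H →L[ℂ] H) (ξ η : H) : ⟪x ξ, η⟫_ℂ = ⟪ξ, star x η⟫_ℂ := by
  rw [ContinuousLinearMap.star_eq_adjoint, ContinuousLinearMap.adjoint_inner_right]

lemma norm_eq_of_inner {a b : H} (h : ⟪a, a⟫_ℂ = ⟪b, b⟫_ℂ) : ‖a‖ = ‖b‖ := by
  rw [@norm_eq_sqrt_re_inner ℂ, @norm_eq_sqrt_re_inner ℂ _ _ _ _ b, h]

namespace Sys

variable {σ : G → G → ℂ} {u : G → H →L[ℂ] H} {δ : H} (S : Sys σ u δ)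

include S

lemma δ_ne : δ ≠ 0 := by
  intro h
  have := S.norm_δ
  rw [h, norm_zero] at this
  exact zero_ne_one this

lemma u_δ_ne (g : G) : u g δ ≠ 0 := by
  intro h
  have := S.iso g δ
  rw [h, norm_zero, S.norm_δ] at this
  exact zero_ne_one this

lemma star_mul_self (g : G) : star (u g) * u g = 1 :=
  (ContinuousLinearMap.norm_map_iff_adjoint_comp_self (u g)).1 (S.iso g)

lemma σ_ne (g h : G) : σ g h ≠ 0 := by
  intro h1
  have := S.norm_σ g h
  rw [h1, norm_zero] at this
  exact zero_ne_one this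

lemma conj_mul_σ (g h : G) : conj (σ g h) * σ g h = 1 := by
  rw [← Complex.normSq_eq_conj_mul_self, Complex.normSq_eq_norm_sq, S.norm_σ]
  norm_num

lemma σ_symm (g : G) : σ g g⁻¹ = σ g⁻¹ g := by
  have h1 : u g * u g⁻¹ = σ g g⁻¹ • 1 := by rw [S.mul, mul_inv_cancel, S.one]
  have h2 : u g⁻¹ * u g = σ g⁻¹ g • 1 := by rw [S.mul, inv_mul_cancel, S.one]
  have h3 : (u g * u g⁻¹) * u g = u g * (u g⁻¹ * u g) := mul_assoc _ _ _
  rw [h1, h2, smul_one_mul, mul_smul_one] at h3
  have h4 : σ g g⁻¹ • u g δ = σ g⁻¹ g • u g δ := by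
    have := congrArg (fun T : H →L[ℂ] H => T δ) h3
    simpa using this
  exact smul_left_injective ℂ (S.u_δ_ne g) h4

lemma star_u (g : G) : star (u g) = conj (σ g g⁻¹) • u g⁻¹ := by
  have h1 : u g * u g⁻¹ = σ g g⁻¹ • 1 := by rw [S.mul, mul_inv_cancel, S.one]
  calc star (u g) = star (u g) * 1 := (mul_one _).symm
    _ = star (u g) * (conj (σ g g⁻¹) • (u g * u g⁻¹)) := by
        rw [h1, smul_smul, S.conj_mul_σ, one_smul]
    _ = conj (σ g g⁻¹) • ((star (u g) * u g) * u g⁻¹) := by
        rw [mul_smul_comm, mul_assoc]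
    _ = _ := by rw [S.star_mul_self, one_mul]

lemma mul_star_self (g : G) : u g * star (u g) = 1 := by
  rw [S.star_u, mul_smul_comm, S.mul, mul_inv_cancel, S.one, smul_smul, S.conj_mul_σ, one_smul]

omit S in
lemma u_mem (g : G) : u g ∈ Alg u := Submodule.subset_span ⟨g, rfl⟩

lemma one_mem : (1 : H →L[ℂ] H) ∈ Alg u := by
  rw [← S.one]; exact u_mem 1

lemma mul_mem {x y : H →L[ℂ] H} (hx : x ∈ Alg u) (hy : y ∈ Alg u) : x * y ∈ Alg u := by
  unfold Alg at hx
  induction hx using Submodule.span_induction with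
  | mem x h =>
    obtain ⟨g, rfl⟩ := h
    unfold Alg at hy
    induction hy using Submodule.span_induction with
    | mem y h =>
      obtain ⟨h, rfl⟩ := h
      rw [S.mul]
      exact (Alg u).smul_mem _ (u_mem _)
    | zero => rw [mul_zero]; exact (Alg u).zero_mem
    | add a b _ _ ha hb => rw [mul_add]; exact (Alg u).add_mem ha hb
    | smul c a _ ha => rw [mul_smul_comm]; exact (Alg u).smul_mem _ ha
  | zero => rw [zero_mul]; exact (Alg u).zero_mem
  | add a b _ _ ha hb => rw [add_mul]; exact (Alg u).add_mem ha hb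
  | smul c a _ ha => rw [smul_mul_assoc]; exact (Alg u).smul_mem _ ha

lemma star_mem {x : H →L[ℂ] H} (hx : x ∈ Alg u) : star x ∈ Alg u := by
  unfold Alg at hx
  induction hx using Submodule.span_induction with
  | mem x h =>
    obtain ⟨g, rfl⟩ := h
    rw [S.star_u]
    exact (Alg u).smul_mem _ (u_mem _)
  | zero => rw [star_zero]; exact (Alg u).zero_mem
  | add a b _ _ ha hb => rw [star_add]; exact (Alg u).add_mem ha hb
  | smul c a _ ha => rw [star_smul]; exact (Alg u).smul_mem _ ha

/-- the vector state is tracial on the algebra -/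
lemma trace {x y : H →L[ℂ] H} (hx : x ∈ Alg u) (hy : y ∈ Alg u) :
    ⟪δ, (x * y) δ⟫_ℂ = ⟪δ, (y * x) δ⟫_ℂ := by
  unfold Alg at hx
  induction hx using Submodule.span_induction with
  | mem x h =>
    obtain ⟨g, rfl⟩ := h
    unfold Alg at hy
    induction hy using Submodule.span_induction with
    | mem y h =>
      obtain ⟨h, rfl⟩ := h
      rw [S.mul, S.mul]
      by_cases hgh : g * h = 1
      · have h1 : h = g⁻¹ := eq_inv_of_mul_eq_one_right hgh
        subst h1
        rw [S.σ_symm, mul_inv_cancel, inv_mul_cancel]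
      · have h1 : h * g ≠ 1 := by
          intro h2
          apply hgh
          rw [eq_inv_of_mul_eq_one_right h2, inv_mul_cancel]
        rw [smul_apply, smul_apply, inner_smul_right, inner_smul_right, S.orth _ hgh,
          S.orth _ h1, mul_zero, mul_zero]
    | zero => simp
    | add a b _ _ ha hb =>
      rw [mul_add, add_mul, add_apply, add_apply, inner_add_right, inner_add_right, ha, hb]
    | smul c a _ ha =>
      rw [mul_smul_comm, smul_mul_assoc, smul_apply, smul_apply, inner_smul_right,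
        inner_smul_right, ha]
  | zero => simp
  | add a b _ _ ha hb =>
    rw [mul_add, add_mul, add_apply, add_apply, inner_add_right, inner_add_right, ha, hb]
  | smul c a _ ha =>
    rw [mul_smul_comm, smul_mul_assoc, smul_apply, smul_apply, inner_smul_right,
      inner_smul_right, ha]

lemma norm_star {x : H →L[ℂ] H} (hx : x ∈ Alg u) : ‖star x δ‖ = ‖x δ‖ := by
  apply norm_eq_of_inner
  rw [inner_star, inner_star, star_star, S.trace hx (S.star_mem hx)]

lemma norm_mul_u {x : H →L[ℂ] H} (hx : x ∈ Alg u) (g : G) : ‖x (u g δ)‖ = ‖x δ‖ := by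
  apply norm_eq_of_inner
  have e1 : x (u g δ) = (x * u g) δ := rfl
  have e2 : star (x * u g) * (x * u g) = (star (u g)) * (star x * x * u g) := by
    rw [star_mul]; simp only [mul_assoc]
  rw [e1, inner_star, inner_star, e2, S.trace (S.star_mem (u_mem g))
    (S.mul_mem (S.mul_mem (S.star_mem hx) hx) (u_mem g)), mul_assoc, S.mul_star_self, mul_one]

lemma norm_u_mul (x : H →L[ℂ] H) (g : G) : ‖(u g * x) δ‖ = ‖x δ‖ := by
  rw [mul_apply_eq_comp, S.iso]

lemma orthonormal : Orthonormal ℂ (fun g => u g δ) := by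
  constructor
  · intro g
    rw [S.iso, S.norm_δ]
  · intro g h hgh
    simp only
    rw [inner_star, S.star_u, smul_mul_assoc, S.mul, smul_apply, smul_apply, inner_smul_right,
      inner_smul_right, S.orth, mul_zero, mul_zero]
    intro h1
    exact hgh (inv_mul_eq_one.1 h1)

lemma hat_sum (F : Finset G) (c : G → ℂ) (g : G) [Decidable (g ∈ F)] :
    hat u δ (∑ h ∈ F, c h • u h) g = if g ∈ F then c g else 0 := by
  classical
  unfold hat
  rw [sum_apply, inner_sum]
  simp only [smul_apply, inner_smul_right]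
  have h1 := orthonormal_iff_ite.1 S.orthonormal
  simp only [h1]
  simp

lemma exists_repr {x : H →L[ℂ] H} (hx : x ∈ Alg u) :
    ∃ F : Finset G, x = ∑ g ∈ F, hat u δ x g • u g ∧ ∀ g ∉ F, hat u δ x g = 0 := by
  classical
  unfold Alg at hx
  rw [Finsupp.mem_span_range_iff_exists_finsupp] at hx
  obtain ⟨c, hc⟩ := hx
  have h1 : ∀ g, hat u δ x g = c g := by
    intro g
    rw [← hc]
    unfold Finsupp.sum
    rw [S.hat_sum]
    split_ifs with h
    · rfl
    · exact (Finsupp.notMem_support_iff.1 h).symm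
  refine ⟨c.support, ?_, ?_⟩
  · simp only [h1]
    exact hc.symm
  · intro g hg
    rw [h1]
    exact Finsupp.notMem_support_iff.1 hg

omit S [CompleteSpace H] in
lemma hat_add (x y : H →L[ℂ] H) (g : G) : hat u δ (x + y) g = hat u δ x g + hat u δ y g := by
  unfold hat; rw [add_apply, inner_add_right]

omit S [CompleteSpace H] in
lemma hat_smul (c : ℂ) (x : H →L[ℂ] H) (g : G) : hat u δ (c • x) g = c * hat u δ x g := by
  unfold hat; rw [smul_apply, inner_smul_right]

lemma norm_hat_le (x : H →L[ℂ] H) (g : G) : ‖hat u δ x g‖ ≤ ‖x‖ := by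
  unfold hat
  refine (norm_inner_le_norm _ _).trans ?_
  rw [S.iso, S.norm_δ, one_mul]
  refine (x.le_opNorm δ).trans ?_
  rw [S.norm_δ, mul_one]

/-- finitely many `k` with nonzero trace of `x u_k` -/
lemma finite_tr {x : H →L[ℂ] H} (hx : x ∈ Alg u) : {k : G | ⟪δ, (x * u k) δ⟫_ℂ ≠ 0}.Finite := by
  unfold Alg at hx
  induction hx using Submodule.span_induction with
  | mem x h =>
    obtain ⟨g, rfl⟩ := h
    refine (Set.finite_singleton g⁻¹).subset ?_
    intro k hk
    by_contra h1
    apply hk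
    rw [S.mul, smul_apply, inner_smul_right, S.orth, mul_zero]
    intro h2
    exact h1 (eq_inv_of_mul_eq_one_right h2)
  | zero => simp
  | add a b _ _ ha hb =>
    refine (ha.union hb).subset ?_
    intro k hk
    by_contra h1
    simp only [Set.mem_union, Set.mem_ofPred_eq, not_or, not_not] at h1
    apply hk
    rw [add_mul, add_apply, inner_add_right, h1.1, h1.2, add_zero]
  | smul c a _ ha =>
    refine ha.subset ?_
    intro k hk h1
    apply hk
    rw [smul_mul_assoc, smul_apply, inner_smul_right, h1, mul_zero]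

end Sys

end Pool.Agent.KS6_22.HF
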