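import Pool.Agent.KS6_22.HF.CF4

/-!
The final abstract statement.
-/

namespace Pool.Agent.KS6_22.HF

open scoped InnerProductSpace ComplexConjugate
set_option linter.unusedSectionVars false
open Complex

variable {G : Type*} [Group G] {H : Type*} [NormedAddCommGroup H] [InnerProductSpace ℂ H]
  [CompleteSpace H]

namespace Sys

variable {σ : G → G → ℂ} {u : G → H →L[ℂ] H} {δ : H} (S : Sys σ u δ)

include S

theorem abstract_main [Infinite G] (d : G → ℝ) (hd0 : ∀ g, 0 ≤ d g)
    (hd1 : ∀ h g, d h ≤ 2 * d (h * g) + 2 * d g) (hd2 : ∀ R, ∃ g, R ≤ d g) :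
    ∃ x : H →L[ℂ] H, x ∈ (Submodule.span ℂ (Set.range u)).topologicalClosure ∧
      (¬ Summable fun g => hat u δ x g • u g) ∧
      ∀ t : ℝ, 0 < t →
        (∃ y ∈ (Submodule.span ℂ (Set.range u)).topologicalClosure,
          (Summable fun g => hat u δ y g • u g) ∧
          ∀ g, hat u δ y g = (Real.exp (-t * d g) : ℂ) * hat u δ x g) ∧
        ∀ V : Submodule ℂ (H →L[ℂ] H), (Submodule.span ℂ (Set.range u)).topologicalClosure ≤ V →
          ∀ M : (H →L[ℂ] H) → (H →L[ℂ] H),
            (∀ a ∈ V, ∀ b ∈ V, M (a + b) = M a + M b) →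
            (∀ c : ℂ, ∀ a ∈ V, M (c • a) = c • M a) →
            (∃ C : ℝ, ∀ a ∈ V, ‖M a‖ ≤ C * ‖a‖) →
            (∀ g, M (u g) = (Real.exp (-t * d g) : ℂ) • u g) →
            M x ∈ (Submodule.span ℂ (Set.range u)).topologicalClosure ∧
              Summable fun g => hat u δ (M x) g • u g := by
  obtain ⟨x, hx1, hx2, hx3⟩ := S.main d hd0 hd1 hd2
  refine ⟨x, hx1, hx2, fun t ht => ⟨?_, ?_⟩⟩
  · have h1 : Summable fun g => ‖(Real.exp (-t * d g) : ℂ) * hat u δ x g‖ := by
      refine (hx3 t ht).congr fun g => ?_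
      rw [norm_mul, Complex.norm_real, Real.norm_of_nonneg (Real.exp_pos _).le]
    obtain ⟨y, hy1, hy2, hy3⟩ := S.exists_of_summable h1
    exact ⟨y, hy1, hy3, hy2⟩
  · intro V hV M hadd hsmul hbd hM
    obtain ⟨C, hC⟩ := hbd
    set M' : (Alg u).topologicalClosure →L[ℂ] (H →L[ℂ] H) :=
      LinearMap.mkContinuous
        { toFun := fun a => M a
          map_add' := fun a b => hadd a (hV a.2) b (hV b.2)
          map_smul' := fun c a => hsmul c a (hV a.2) } C
        (fun a => hC a (hV a.2)) with hM'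
    have h1 : ∀ g, ∀ hg : u g ∈ (Alg u).topologicalClosure,
        M' ⟨u g, hg⟩ = (Real.exp (-t * d g) : ℂ) • u g := fun g hg => hM g
    obtain ⟨h2, h3⟩ := S.heat_closure (fun g => (Real.exp (-t * d g) : ℂ)) M' h1 ⟨x, hx1⟩
    have h4 : M' ⟨x, hx1⟩ = M x := rfl
    rw [h4] at h2 h3
    refine ⟨h2, ?_⟩
    simp only [h3]
    refine Summable.of_norm_bounded (hx3 t ht) fun g => ?_
    rw [norm_smul, norm_mul, Complex.norm_real, Real.norm_of_nonneg (Real.exp_pos _).le]
    calc _ ≤ (Real.exp (-t * d g) * ‖hat u δ x g‖) * 1 :=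
          mul_le_mul_of_nonneg_left (S.opNorm_u_le g) (by positivity)
      _ = _ := mul_one _

end Sys

end Pool.Agent.KS6_22.HF
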