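import Pool.Agent.KS6_22.HF.CF5

/-!
The twisted left translations with respect to a Hilbert basis.
-/

namespace Pool.Agent.KS6_22.HF

open scoped InnerProductSpace ComplexConjugate
open Complex

variable {G : Type*} [Group G]

lemma norm_shift (σ : G → G → Circle) (g k : G) (ξ : G → ℂ) :
    ‖(σ g (g⁻¹ * k) : ℂ) * ξ (g⁻¹ * k)‖ = ‖ξ (g⁻¹ * k)‖ := by
  rw [norm_mul, Circle.norm_coe, one_mul]

lemma memlp_shift (σ : G → G → Circle) (g : G) (ξ : lp (fun _ : G => ℂ) 2) :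
    Memℓp (E := fun _ : G => ℂ) (fun k => (σ g (g⁻¹ * k) : ℂ) * ξ (g⁻¹ * k)) 2 := by
  have h0 : 0 < (2 : ENNReal).toReal := by norm_num
  have h1 := (memℓp_gen_iff h0).1 (lp.memℓp ξ)
  rw [memℓp_gen_iff h0]
  simp only [norm_shift]
  exact (Equiv.mulLeft g⁻¹).summable_iff.2 h1

/-- the twisted left translation `(Λ_σ(g) ξ)(k) = σ(g, g⁻¹ k) ξ(g⁻¹ k)` as a function -/
def shift (σ : G → G → Circle) (g : G) (ξ : lp (fun _ : G => ℂ) 2) : lp (fun _ : G => ℂ) 2 :=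
  ⟨fun k => (σ g (g⁻¹ * k) : ℂ) * ξ (g⁻¹ * k), memlp_shift σ g ξ⟩

lemma shift_apply (σ : G → G → Circle) (g : G) (ξ : lp (fun _ : G => ℂ) 2) (k : G) :
    shift σ g ξ k = (σ g (g⁻¹ * k) : ℂ) * ξ (g⁻¹ * k) := rfl

lemma norm_shift_eq (σ : G → G → Circle) (g : G) (ξ : lp (fun _ : G => ℂ) 2) :
    ‖shift σ g ξ‖ = ‖ξ‖ := by
  have h0 : 0 < (2 : ENNReal).toReal := by norm_num
  have h1 := lp.norm_rpow_eq_tsum h0 (shift σ g ξ)
  have h2 := lp.norm_rpow_eq_tsum h0 ξ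
  simp only [shift_apply, norm_shift] at h1
  have h3 : ∑' k, ‖ξ (g⁻¹ * k)‖ ^ (2 : ENNReal).toReal = ∑' k, ‖ξ k‖ ^ (2 : ENNReal).toReal :=
    (Equiv.mulLeft g⁻¹).tsum_eq (fun k => ‖ξ k‖ ^ (2 : ENNReal).toReal)
  rw [h3, ← h2] at h1
  have h4 : (2 : ENNReal).toReal = ((2 : ℕ) : ℝ) := by norm_num
  rw [h4, Real.rpow_natCast, Real.rpow_natCast] at h1
  exact (sq_eq_sq₀ (norm_nonneg _) (norm_nonneg _)).1 h1

/-- the operator `Λ_σ(g)` on `ℓ²(G)`; it maps `δ_h` to `σ(g, h) δ_{gh}` -/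
noncomputable def Lam (σ : G → G → Circle) (g : G) :
    lp (fun _ : G => ℂ) 2 →L[ℂ] lp (fun _ : G => ℂ) 2 :=
  LinearMap.mkContinuous
    { toFun := shift σ g
      map_add' := fun ξ η => lp.ext (funext fun k => by
        simp only [shift_apply, lp.coeFn_add, Pi.add_apply, mul_add])
      map_smul' := fun c ξ => lp.ext (funext fun k => by
        simp only [shift_apply, lp.coeFn_smul, Pi.smul_apply, smul_eq_mul, RingHom.id_apply]
        ring) }
    1 (fun ξ => by rw [one_mul]; exact (norm_shift_eq σ g ξ).le)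

lemma Lam_apply (σ : G → G → Circle) (g : G) (ξ : lp (fun _ : G => ℂ) 2) (k : G) :
    Lam σ g ξ k = (σ g (g⁻¹ * k) : ℂ) * ξ (g⁻¹ * k) := rfl

lemma Lam_single [DecidableEq G] (σ : G → G → Circle) (g h : G) :
    Lam σ g (lp.single 2 h 1) = (σ g h : ℂ) • (lp.single 2 (g * h) 1) := by
  apply lp.ext
  funext k
  rw [Lam_apply, lp.coeFn_smul, Pi.smul_apply, smul_eq_mul]
  rw [lp.single_apply, lp.single_apply]
  by_cases hk : k = g * h
  · subst hk
    rw [inv_mul_cancel_left]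
    simp
  · have h1 : g⁻¹ * k ≠ h := by
      intro h2
      apply hk
      rw [← h2, mul_inv_cancel_left]
    rw [Pi.single_eq_of_ne h1, Pi.single_eq_of_ne hk, mul_zero, mul_zero]

variable {H : Type*} [NormedAddCommGroup H] [InnerProductSpace ℂ H]

/-- the twisted translations with respect to a Hilbert basis -/
noncomputable def LamB (b : HilbertBasis G ℂ H) (σ : G → G → Circle) (g : G) : H →L[ℂ] H :=
  (b.repr.symm.toContinuousLinearEquiv : lp (fun _ : G => ℂ) 2 →L[ℂ] H) ∘L (Lam σ g) ∘L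
    (b.repr.toContinuousLinearEquiv : H →L[ℂ] lp (fun _ : G => ℂ) 2)

lemma LamB_apply (b : HilbertBasis G ℂ H) (σ : G → G → Circle) (g : G) (ξ : H) :
    LamB b σ g ξ = b.repr.symm (Lam σ g (b.repr ξ)) := rfl

lemma LamB_basis (b : HilbertBasis G ℂ H) (σ : G → G → Circle) (g h : G) :
    LamB b σ g (b h) = (σ g h : ℂ) • b (g * h) := by
  classical
  rw [LamB_apply, b.repr_self, Lam_single, map_smul, b.repr_symm_single]

lemma LamB_norm (b : HilbertBasis G ℂ H) (σ : G → G → Circle) (g : G) (ξ : H) :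
    ‖LamB b σ g ξ‖ = ‖ξ‖ := by
  rw [LamB_apply, b.repr.symm.norm_map]
  have h1 : ‖Lam σ g (b.repr ξ)‖ = ‖b.repr ξ‖ := norm_shift_eq σ g (b.repr ξ)
  rw [h1, b.repr.norm_map]

lemma ext_basis (b : HilbertBasis G ℂ H) {S T : H →L[ℂ] H} (h : ∀ g, S (b g) = T (b g)) :
    S = T := by
  refine ContinuousLinearMap.ext_on (s := Set.range b) ?_ ?_
  · have h1 := b.dense_span
    rw [Submodule.dense_iff_topologicalClosure_eq_top]
    exact h1
  · rintro _ ⟨g, rfl⟩
    exact h g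

lemma sys_of_basis [CompleteSpace H] (b : HilbertBasis G ℂ H) (σ : G → G → Circle)
    (hσ : ∀ g h k, σ g h * σ (g * h) k = σ h k * σ g (h * k))
    (hσ1 : ∀ g, σ g 1 = 1 ∧ σ 1 g = 1) (Λ : G → H →L[ℂ] H)
    (hΛ : ∀ g h, Λ g (b h) = (σ g h : ℂ) • b (g * h)) :
    Sys (fun g h => (σ g h : ℂ)) Λ (b 1) where
  norm_δ := b.orthonormal.1 1
  norm_σ g h := Circle.norm_coe _
  one := by
    apply ext_basis b
    intro g
    rw [hΛ, (hσ1 g).2, one_mul, Circle.coe_one, one_smul]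
    rfl
  mul g h := by
    apply ext_basis b
    intro k
    rw [smul_apply, mul_apply_eq_comp, hΛ, map_smul, hΛ, hΛ, smul_smul, smul_smul, mul_assoc g h k]
    have h3 := hσ g h k
    have h4 : (σ g h : ℂ) * (σ (g * h) k : ℂ) = (σ h k : ℂ) * (σ g (h * k) : ℂ) := by
      exact_mod_cast congrArg (fun z : Circle => (z : ℂ)) h3
    rw [h4]
  iso g ξ := by
    have h1 : Λ g = LamB b σ g := by
      apply ext_basis b
      intro k
      rw [hΛ, LamB_basis]
    rw [h1, LamB_norm]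
  orth g hg := by
    rw [hΛ, inner_smul_right, b.orthonormal.2, mul_zero]
    intro h
    apply hg
    rw [mul_one] at h
    exact h.symm

end Pool.Agent.KS6_22.HF
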