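import Pool.Agent.KS6_22.HF.CF6

/-!
The gliding hump for sequences of multipliers.
-/

namespace Pool.Agent.KS6_22.HF

open scoped InnerProductSpace ComplexConjugate Pointwise
set_option linter.unusedSectionVars false
open Complex

variable {G : Type*} [Group G] {H : Type*} [NormedAddCommGroup H] [InnerProductSpace ℂ H]
  [CompleteSpace H]

/-- on every finite set there are left translates on which finitely many of the functions are
simultaneously small -/
def Thick (φ : ℕ → G → ℂ) : Prop :=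
  ∀ (n : ℕ) (T : Finset G) (ε : ℝ), 0 < ε → ∃ h : G, ∀ k ≤ n, ∀ g ∈ T, ‖φ k (h * g)‖ < ε

lemma thick_avoid [Infinite G] {φ : ℕ → G → ℂ} (hφ : Thick φ) (n : ℕ) (T : Finset G) (ε : ℝ)
    (hε : 0 < ε) (A : Finset G) :
    ∃ h : G, (∀ k ≤ n, ∀ g ∈ T, ‖φ k (h * g)‖ < ε) ∧ ∀ g ∈ T, h * g ∉ A := by
  classical
  obtain ⟨W, hW⟩ := Infinite.exists_subset_card_eq G ((A * T⁻¹).card + 1)
  obtain ⟨h, hh⟩ := hφ n (W * T) ε hε
  obtain ⟨w, hw, hwA⟩ : ∃ w ∈ W, h * w ∉ A * T⁻¹ := by
    by_contra hcon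
    push Not at hcon
    have h1 : W.image (fun w => h * w) ⊆ A * T⁻¹ := by
      intro x hx
      obtain ⟨w, hw, rfl⟩ := Finset.mem_image.1 hx
      exact hcon w hw
    have h2 := Finset.card_le_card h1
    rw [Finset.card_image_of_injective _ (mul_right_injective h), hW] at h2
    omega
  refine ⟨h * w, fun k hk g hg => ?_, fun g hg hA => ?_⟩
  · rw [mul_assoc]
    exact hh k hk _ (Finset.mul_mem_mul hw hg)
  · apply hwA
    rw [show h * w = (h * w * g) * g⁻¹ by group]
    exact Finset.mul_mem_mul hA (Finset.inv_mem_inv hg)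

namespace Sys

variable {σ : G → G → ℂ} {u : G → H →L[ℂ] H} {δ : H} (S : Sys σ u δ)

include S

/-- the sequence of humps and translations -/
lemma exists_humps2 [Infinite G] {φ : ℕ → G → ℂ} (hφ : Thick φ) :
    ∃ (y : ℕ → H →L[ℂ] H) (F T : ℕ → Finset G) (h : ℕ → G),
      (∀ n, y n ∈ Alg u) ∧ (∀ n, ‖y n‖ ≤ (1 / 2) ^ n) ∧
      (∀ n, 1 ≤ ‖∑ g ∈ F n, hat u δ (y n) g • u g‖) ∧ (∀ n, F n ⊆ T n) ∧
      (∀ n, ∀ g ∉ T n, hat u δ (y n) g = 0) ∧
      (∀ m n, m < n → ∀ g' ∈ T m, ∀ g ∈ T n, h m * g' ≠ h n * g) ∧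
      (∀ n k : ℕ, k ≤ n →
        ∑ g ∈ T n, ‖φ k (h n * g)‖ * ‖hat u δ (y n) g‖ ≤ (1 / 2) ^ n) := by
  classical
  choose y F T hy1 hy2 hy3 hy4 hy5 using fun k => S.exists_hump k
  set C : ℕ → ℝ := fun k => ∑ g ∈ T k, ‖hat u δ (y k) g‖ with hC
  have hC0 : ∀ k, 0 ≤ C k := fun k => Finset.sum_nonneg fun g _ => norm_nonneg _
  set e : ℕ → ℝ := fun k => (1 / 2) ^ k / (C k + 1) with he
  have he0 : ∀ k, 0 < e k := fun k => div_pos (by positivity) (by linarith [hC0 k])
  obtain ⟨f, hf1, hf2⟩ := exists_seq_of_forall_finset_exists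
    (fun p : ℕ × G => ∀ k ≤ p.1, ∀ g ∈ T p.1, ‖φ k (p.2 * g)‖ < e p.1)
    (fun p q : ℕ × G => p.1 < q.1 ∧ ∀ g' ∈ T p.1, ∀ g ∈ T q.1, p.2 * g' ≠ q.2 * g) (by
      intro s _
      obtain ⟨k, hk⟩ : ∃ k : ℕ, ∀ p ∈ s, p.1 < k :=
        ⟨s.sup (fun p => p.1) + 1, fun p hp => Nat.lt_succ_of_le (Finset.le_sup (f := fun p => p.1) hp)⟩
      obtain ⟨h, hh1, hh2⟩ := thick_avoid hφ k (T k) (e k) (he0 k)
        (s.biUnion fun p => (T p.1).image fun g => p.2 * g)
      refine ⟨(k, h), fun j hj g hg => hh1 j hj g hg, fun p hp => ⟨hk p hp, ?_⟩⟩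
      intro g' hg' g hg heq
      refine hh2 g hg (Finset.mem_biUnion.2 ⟨p, hp, Finset.mem_image.2 ⟨g', hg', heq⟩⟩))
  have hmono : StrictMono fun n => (f n).1 := fun m n hmn => (hf2 m n hmn).1
  have hid : ∀ n, n ≤ (f n).1 := hmono.id_le
  have hpow : ∀ n, (1 / 2 : ℝ) ^ (f n).1 ≤ (1 / 2) ^ n := fun n =>
    pow_le_pow_of_le_one (by norm_num) (by norm_num) (hid n)
  refine ⟨fun n => y (f n).1, fun n => F (f n).1, fun n => T (f n).1, fun n => (f n).2,
    fun n => hy1 _, fun n => (hy2 _).trans (hpow n), fun n => hy3 _, fun n => hy4 _,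
    fun n => hy5 _, fun m n hmn => (hf2 m n hmn).2, ?_⟩
  intro n j hj
  refine le_trans ?_ (hpow n)
  set k := (f n).1 with hk
  calc ∑ g ∈ T k, ‖φ j ((f n).2 * g)‖ * ‖hat u δ (y k) g‖
      ≤ ∑ g ∈ T k, e k * ‖hat u δ (y k) g‖ :=
        Finset.sum_le_sum fun g hg => mul_le_mul_of_nonneg_right
          (hf1 n j (hj.trans (hid n)) g hg).le (norm_nonneg _)
    _ = e k * C k := by rw [← Finset.mul_sum]
    _ ≤ (1 / 2) ^ k := by
        rw [he]
        have h1 := hC0 k
        rw [div_mul_eq_mul_div, div_le_iff₀ (by linarith)]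
        have : (0 : ℝ) < (1 / 2) ^ k := by positivity
        nlinarith

/-- one operator for a sequence of multipliers -/
theorem main2 [Infinite G] {φ : ℕ → G → ℂ} (hφ : Thick φ) :
    ∃ x ∈ closure (Alg u : Set (H →L[ℂ] H)), (¬ Summable fun g => hat u δ x g • u g) ∧
      ∀ k : ℕ, Summable fun g => ‖φ k g‖ * ‖hat u δ x g‖ := by
  classical
  obtain ⟨y, F, T, h, hy1, hy2, hy3, hFT, hy5, hdis, hexp⟩ := S.exists_humps2 hφ
  set Y : ℕ → H →L[ℂ] H := fun n => u (h n) * y n with hY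
  have hYn : ∀ n, ‖Y n‖ ≤ (1 / 2) ^ n := fun n => (S.norm_mul_left' _ _).trans (hy2 n)
  have hgeo : Summable fun n : ℕ => ((1 / 2 : ℝ)) ^ n :=
    summable_geometric_of_lt_one (by norm_num) (by norm_num : (1/2:ℝ) < 1)
  have hYs : Summable Y := Summable.of_norm_bounded hgeo hYn
  set x := ∑' n, Y n with hx
  have hxh : HasSum Y x := hYs.hasSum
  have hhat : ∀ g, HasSum (fun n => hat u δ (Y n) g) (hat u δ x g) := by
    intro g
    exact hxh.mapL (hatL u δ g)
  have hYhat : ∀ n g, hat u δ (Y n) g = σ (h n) ((h n)⁻¹ * g) * hat u δ (y n) ((h n)⁻¹ * g) :=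
    fun n g => S.hat_u_mul _ _ _
  have hdis' : ∀ m n, m ≠ n → ∀ g' ∈ T m, ∀ g ∈ T n, h m * g' ≠ h n * g := by
    intro m n hmn g' hg' g hg
    rcases lt_or_gt_of_ne hmn with h1 | h1
    · exact hdis m n h1 g' hg' g hg
    · exact (hdis n m h1 g hg g' hg').symm
  refine ⟨x, ?_, ?_, ?_⟩
  · apply mem_closure_of_tendsto hxh
    filter_upwards with s
    exact Submodule.sum_mem _ fun n _ => S.mul_mem (u_mem _) (hy1 n)
  · intro hsum
    obtain ⟨s, hs⟩ := summable_iff_vanishing_norm.1 hsum 1 one_pos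
    obtain ⟨n, hn⟩ : ∃ n, Disjoint ((F n).image (fun g => h n * g)) s := by
      by_contra hcon
      push Not at hcon
      have h1 : ∀ n, ∃ g ∈ F n, h n * g ∈ s := by
        intro n
        obtain ⟨a, ha1, ha2⟩ := Finset.not_disjoint_iff.1 (hcon n)
        obtain ⟨g, hg, rfl⟩ := Finset.mem_image.1 ha1
        exact ⟨g, hg, ha2⟩
      choose g hg1 hg2 using h1
      refine not_injective_infinite_finite (fun n : ℕ => (⟨h n * g n, hg2 n⟩ : s)) ?_
      intro m n hmn
      by_contra hne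
      exact hdis' m n hne _ (hFT m (hg1 m)) _ (hFT n (hg1 n)) (congrArg Subtype.val hmn)
    have h2 := hs _ hn
    rw [Finset.sum_image (by
      intro a _ b _ hab
      exact mul_left_cancel hab)] at h2
    have h3 : ∑ g ∈ F n, hat u δ x (h n * g) • u (h n * g) =
        u (h n) * ∑ g ∈ F n, hat u δ (y n) g • u g := by
      rw [Finset.mul_sum]
      refine Finset.sum_congr rfl fun g hg => ?_
      have h4 : hat u δ x (h n * g) = σ (h n) g * hat u δ (y n) g := by
        have h5 : HasSum (fun m => hat u δ (Y m) (h n * g)) (hat u δ (Y n) (h n * g)) := by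
          apply hasSum_single
          intro m hm
          rw [hYhat]
          rw [hy5 m _ ?_, mul_zero]
          intro h6
          refine hdis' m n hm _ h6 g (hFT n hg) ?_
          rw [mul_inv_cancel_left]
        rw [(hhat (h n * g)).unique h5, hYhat, inv_mul_cancel_left]
      rw [h4, mul_smul_comm, S.mul, smul_smul, mul_comm (σ (h n) g)]
    rw [h3] at h2
    have h6 := (hy3 n).trans (S.norm_mul_left (h n) _)
    linarith
  · intro k
    -- the double family
    set f : ℕ × G → ℝ := fun p => ‖φ k p.2‖ * ‖hat u δ (Y p.1) p.2‖ with hf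
    have hf0 : 0 ≤ f := fun p => by
      simp only [hf, Pi.zero_apply]
      positivity
    have hrow : ∀ n, HasSum (fun g => f (n, g))
        (∑ g ∈ T n, ‖φ k (h n * g)‖ * ‖hat u δ (y n) g‖) := by
      intro n
      have h1 : HasSum (fun g => f (n, g)) (∑ g ∈ (T n).image (fun g => h n * g), f (n, g)) := by
        apply hasSum_sum_of_ne_finset_zero
        intro g hg
        simp only [hf]
        rw [hYhat, hy5 n, mul_zero, norm_zero, mul_zero]
        intro h2
        apply hg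
        exact Finset.mem_image.2 ⟨_, h2, by rw [mul_inv_cancel_left]⟩
      rw [Finset.sum_image (by
        intro a _ b _ hab
        exact mul_left_cancel hab)] at h1
      convert h1 using 1
      refine Finset.sum_congr rfl fun g _ => ?_
      simp only [hf]
      rw [hYhat, inv_mul_cancel_left, norm_mul, S.norm_σ, one_mul]
    have hsumf : Summable f := by
      rw [summable_prod_of_nonneg hf0]
      refine ⟨fun n => (hrow n).summable, ?_⟩
      have h1 : ∀ n, ∑' g, f (n, g) =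
          ∑ g ∈ T n, ‖φ k (h n * g)‖ * ‖hat u δ (y n) g‖ := fun n => (hrow n).tsum_eq
      simp only [h1]
      rw [← summable_nat_add_iff k]
      exact Summable.of_nonneg_of_le (fun n => Finset.sum_nonneg fun g _ => by positivity)
        (fun n => hexp (n + k) k (Nat.le_add_left k n)) ((summable_nat_add_iff k).2 hgeo)
    have hcol : Summable fun g => ∑' n, f (n, g) := by
      have h1 : Summable (fun p : G × ℕ => f p.swap) := hsumf.prod_symm
      exact h1.prod
    refine Summable.of_nonneg_of_le (fun g => by positivity) (fun g => ?_) hcol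
    simp only [hf]
    rw [tsum_mul_left]
    refine mul_le_mul_of_nonneg_left ?_ (norm_nonneg _)
    have h1 : Summable fun n => ‖hat u δ (Y n) g‖ :=
      Summable.of_nonneg_of_le (fun n => norm_nonneg _)
        (fun n => (S.norm_hat_le _ _).trans (hYn n)) hgeo
    rw [← (hhat g).tsum_eq]
    exact norm_tsum_le_tsum_norm h1

/-- such operators are dense -/
theorem main_dense [Infinite G] {φ : ℕ → G → ℂ} (hφ : Thick φ) (z : H →L[ℂ] H)
    (hz : z ∈ closure (Alg u : Set (H →L[ℂ] H))) (ε : ℝ) (hε : 0 < ε) :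
    ∃ x ∈ closure (Alg u : Set (H →L[ℂ] H)), ‖x - z‖ < ε ∧
      (¬ Summable fun g => hat u δ x g • u g) ∧
      ∀ k : ℕ, Summable fun g => ‖φ k g‖ * ‖hat u δ x g‖ := by
  classical
  obtain ⟨x, hx1, hx2, hx3⟩ := S.main2 hφ
  obtain ⟨a, ha, haz⟩ := Metric.mem_closure_iff.1 hz (ε / 2) (half_pos hε)
  obtain ⟨T, -, hT⟩ := S.exists_repr ha
  set c : ℝ := ε / (2 * (‖x‖ + 1)) with hc
  have hx0 : (0 : ℝ) < ‖x‖ + 1 := by positivity
  have hc0 : 0 < c := by rw [hc]; positivity
  have hcx : c * ‖x‖ < ε / 2 := by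
    rw [hc, div_mul_eq_mul_div, div_lt_iff₀ (by positivity)]
    nlinarith [norm_nonneg x]
  have hcc : ((c : ℝ) : ℂ) ≠ 0 := by exact_mod_cast hc0.ne'
  have hhat : ∀ g, hat u δ (a + (c : ℂ) • x) g = hat u δ a g + (c : ℂ) * hat u δ x g := by
    intro g
    rw [hat_add, hat_smul]
  have hfin : ∀ g ∉ T, hat u δ a g = 0 := fun g hg => hT g hg
  refine ⟨a + (c : ℂ) • x, ?_, ?_, ?_, ?_⟩
  · have h1 : a + (c : ℂ) • x ∈ (Alg u).topologicalClosure :=
      Submodule.add_mem _ ((Alg u).le_topologicalClosure ha) (Submodule.smul_mem _ _ hx1)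
    exact h1
  · have h1 : a + (c : ℂ) • x - z = (a - z) + (c : ℂ) • x := by abel
    rw [h1]
    have h2 : ‖(c : ℂ) • x‖ = c * ‖x‖ := by
      rw [norm_smul, Complex.norm_real, Real.norm_of_nonneg hc0.le]
    have h3 : ‖a - z‖ < ε / 2 := by
      rw [← dist_eq_norm, dist_comm]
      exact haz
    calc ‖(a - z) + (c : ℂ) • x‖ ≤ ‖a - z‖ + ‖(c : ℂ) • x‖ := norm_add_le _ _
      _ < ε / 2 + ε / 2 := by rw [h2]; exact add_lt_add h3 hcx
      _ = ε := by ring
  · intro hs
    apply hx2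
    have h1 : Summable fun g => hat u δ a g • u g :=
      summable_of_ne_finset_zero (s := T) (fun g hg => by rw [hfin g hg, zero_smul])
    have h2 := (hs.sub h1).const_smul ((c : ℂ)⁻¹)
    refine h2.congr fun g => ?_
    rw [hhat, add_smul, add_sub_cancel_left, smul_smul, ← mul_assoc, inv_mul_cancel₀ hcc, one_mul]
  · intro k
    have h1 : Summable fun g => ‖φ k g‖ * ‖hat u δ a g‖ :=
      summable_of_ne_finset_zero (s := T) (fun g hg => by rw [hfin g hg, norm_zero, mul_zero])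
    refine Summable.of_nonneg_of_le (fun g => by positivity) (fun g => ?_)
      (h1.add ((hx3 k).mul_left c))
    rw [hhat]
    have h2 : ‖hat u δ a g + (c : ℂ) * hat u δ x g‖ ≤ ‖hat u δ a g‖ + c * ‖hat u δ x g‖ := by
      refine (norm_add_le _ _).trans ?_
      rw [norm_mul, Complex.norm_real, Real.norm_of_nonneg hc0.le]
    calc ‖φ k g‖ * ‖hat u δ a g + (c : ℂ) * hat u δ x g‖
        ≤ ‖φ k g‖ * (‖hat u δ a g‖ + c * ‖hat u δ x g‖) :=
          mul_le_mul_of_nonneg_left h2 (norm_nonneg _)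
      _ = _ := by ring

end Sys

end Pool.Agent.KS6_22.HF
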