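import Pool.Agent.KS6_22.HF.CF7

/-!
Bounded scalars and unconditional convergence; a coarse covering lemma for quasi-lengths.
-/

namespace Pool.Agent.KS6_22.HF

set_option linter.unusedSectionVars false

section uncond

variable {E : Type*} [NormedAddCommGroup E] [NormedSpace ℂ E] {ι : Type*}

lemma sum_abs_re {t : Finset ι} {a : ι → ℂ} {e : ℝ} (h : ∀ s ⊆ t, ‖∑ i ∈ s, a i‖ ≤ e) :
    ∑ i ∈ t, |(a i).re| ≤ 2 * e := by
  classical
  have h1 : ∑ i ∈ t, |(a i).re| = ∑ i ∈ t with 0 ≤ (a i).re, (a i).re -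
      ∑ i ∈ t with ¬ 0 ≤ (a i).re, (a i).re := by
    rw [← Finset.sum_filter_add_sum_filter_not t (fun i => 0 ≤ (a i).re), sub_eq_add_neg,
      ← Finset.sum_neg_distrib]
    congr 1
    · exact Finset.sum_congr rfl fun i hi => abs_of_nonneg (Finset.mem_filter.1 hi).2
    · exact Finset.sum_congr rfl fun i hi =>
        abs_of_neg (not_le.1 (Finset.mem_filter.1 hi).2)
  have h2 : ∀ s ⊆ t, |∑ i ∈ s, (a i).re| ≤ e := by
    intro s hs
    have := Complex.abs_re_le_norm (∑ i ∈ s, a i)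
    rw [Complex.re_sum] at this
    exact this.trans (h s hs)
  rw [h1]
  have h3 := (abs_le.1 (h2 _ (Finset.filter_subset (fun i => 0 ≤ (a i).re) t))).2
  have h4 := (abs_le.1 (h2 _ (Finset.filter_subset (fun i => ¬ 0 ≤ (a i).re) t))).1
  linarith

lemma sum_norm_le {t : Finset ι} {a : ι → ℂ} {e : ℝ} (h : ∀ s ⊆ t, ‖∑ i ∈ s, a i‖ ≤ e) :
    ∑ i ∈ t, ‖a i‖ ≤ 4 * e := by
  have h1 := sum_abs_re h
  have h2 : ∑ i ∈ t, |(a i).im| ≤ 2 * e := by
    have h3 : ∀ s ⊆ t, ‖∑ i ∈ s, (-Complex.I * a i)‖ ≤ e := by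
      intro s hs
      rw [← Finset.mul_sum, norm_mul, norm_neg, Complex.norm_I, one_mul]
      exact h s hs
    have h4 := sum_abs_re h3
    simpa using h4
  calc ∑ i ∈ t, ‖a i‖ ≤ ∑ i ∈ t, (|(a i).re| + |(a i).im|) :=
        Finset.sum_le_sum fun i _ => Complex.norm_le_abs_re_add_abs_im _
    _ = ∑ i ∈ t, |(a i).re| + ∑ i ∈ t, |(a i).im| := Finset.sum_add_distrib
    _ ≤ 4 * e := by linarith

lemma norm_sum_smul_le {t : Finset ι} {f : ι → E} {c : ι → ℂ} {C e : ℝ} (hC : 0 ≤ C)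
    (hc : ∀ i, ‖c i‖ ≤ C) (h : ∀ s ⊆ t, ‖∑ i ∈ s, f i‖ ≤ e) :
    ‖∑ i ∈ t, c i • f i‖ ≤ C * (4 * e) := by
  have he : 0 ≤ e := by
    have := h ∅ (Finset.empty_subset _)
    simpa using this
  refine NormedSpace.norm_le_dual_bound ℂ _ (by positivity) fun ψ => ?_
  have h1 : ∀ s ⊆ t, ‖∑ i ∈ s, ψ (f i)‖ ≤ e * ‖ψ‖ := by
    intro s hs
    rw [← map_sum]
    calc ‖ψ (∑ i ∈ s, f i)‖ ≤ ‖ψ‖ * ‖∑ i ∈ s, f i‖ := ψ.le_opNorm _
      _ ≤ ‖ψ‖ * e := mul_le_mul_of_nonneg_left (h s hs) (norm_nonneg _)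
      _ = _ := mul_comm _ _
  have h2 := sum_norm_le h1
  rw [map_sum]
  calc ‖∑ i ∈ t, ψ (c i • f i)‖ ≤ ∑ i ∈ t, ‖ψ (c i • f i)‖ := norm_sum_le _ _
    _ ≤ ∑ i ∈ t, C * ‖ψ (f i)‖ := Finset.sum_le_sum fun i _ => by
        rw [map_smul, smul_eq_mul, norm_mul]
        exact mul_le_mul_of_nonneg_right (hc i) (norm_nonneg _)
    _ = C * ∑ i ∈ t, ‖ψ (f i)‖ := by rw [Finset.mul_sum]
    _ ≤ C * (4 * (e * ‖ψ‖)) := mul_le_mul_of_nonneg_left h2 hC
    _ = _ := by ring

lemma summable_smul_bdd [CompleteSpace E] {f : ι → E} (hf : Summable f) (c : ι → ℂ) (C : ℝ)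
    (hc : ∀ i, ‖c i‖ ≤ C) : Summable fun i => c i • f i := by
  classical
  rcases isEmpty_or_nonempty ι with hι | ⟨⟨i0⟩⟩
  · exact (hasSum_empty).summable
  have hC : 0 ≤ C := (norm_nonneg _).trans (hc i0)
  rw [summable_iff_vanishing_norm] at hf ⊢
  intro ε hε
  obtain ⟨s, hs⟩ := hf (ε / (4 * (C + 1))) (by positivity)
  refine ⟨s, fun t ht => ?_⟩
  have h1 := norm_sum_smul_le (t := t) (f := f) (c := c) hC hc
    (e := ε / (4 * (C + 1))) (fun r hr => (hs r (Finset.disjoint_of_subset_left hr ht)).le)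
  refine lt_of_le_of_lt h1 ?_
  have : C * (4 * (ε / (4 * (C + 1)))) = ε * (C / (C + 1)) := by field_simp
  rw [this]
  have h2 : C / (C + 1) < 1 := by rw [div_lt_one (by linarith)]; linarith
  nlinarith

end uncond

section quasi

variable {G : Type*} [Group G]

/-- `d : G → [0, ∞)` is a quasi-length: `d(g) ≤ C (d(g h) + d(h))` for one `C` and all `g`, `h` -/
def QuasiLength (d : G → ℝ) : Prop :=
  (∀ g, 0 ≤ d g) ∧ ∃ C : ℝ, ∀ g h, d g ≤ C * (d (g * h) + d h)

lemma QuasiLength.exists_pos {d : G → ℝ} (hd : QuasiLength d) :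
    ∃ C : ℝ, 0 < C ∧ ∀ g h, d g ≤ C * (d (g * h) + d h) := by
  obtain ⟨h0, C, hC⟩ := hd
  refine ⟨max C 1, by positivity, fun g h => (hC g h).trans ?_⟩
  exact mul_le_mul_of_nonneg_right (le_max_left _ _) (add_nonneg (h0 _) (h0 _))

/-- the group is not a finite union of balls of unbounded quasi-lengths -/
lemma exists_all_large (d : ℕ → G → ℝ) (hd : ∀ k, QuasiLength (d k))
    (hub : ∀ k, ¬ ∃ C : ℝ, ∀ g, d k g ≤ C) (n : ℕ) : ∀ R : ℝ, ∃ g, ∀ i < n, R < d i g := by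
  induction n with
  | zero => exact fun R => ⟨1, fun i hi => absurd hi (Nat.not_lt_zero _)⟩
  | succ n ih =>
    intro R
    by_contra hcon
    push Not at hcon
    obtain ⟨C, hC0, hC⟩ := (hd n).exists_pos
    have h0 := (hd n).1
    -- the set of the quotients of the ball is bounded
    set K : ℝ := C * (C * (d n 1 + R) + C * (d n 1 + R)) with hK
    have hquo : ∀ b b' : G, d n b ≤ R → d n b' ≤ R → d n (b⁻¹ * b') ≤ K := by
      intro b b' hb hb'
      have h1 : ∀ x, d n x ≤ R → d n x⁻¹ ≤ C * (d n 1 + R) := by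
        intro x hx
        have := hC x⁻¹ x
        rw [inv_mul_cancel] at this
        exact this.trans (mul_le_mul_of_nonneg_left (by linarith) hC0.le)
      have h2 := hC (b⁻¹ * b') b'⁻¹
      rw [mul_inv_cancel_right] at h2
      exact h2.trans (mul_le_mul_of_nonneg_left (add_le_add (h1 b hb) (h1 b' hb')) hC0.le)
    obtain ⟨g, hg⟩ : ∃ g, K < d n g := by
      by_contra h1
      push Not at h1
      exact hub n ⟨K, h1⟩
    choose c hc0 hc using fun i => (hd i).exists_pos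
    set R' : ℝ := max R (∑ i ∈ Finset.range n, c i * (|R| + d i g)) with hR'
    obtain ⟨b, hb⟩ := ih R'
    obtain ⟨i, hi, hi2⟩ := hcon b
    have hnn : ∀ i, 0 ≤ c i * (|R| + d i g) := fun i =>
      mul_nonneg (hc0 i).le (add_nonneg (abs_nonneg _) ((hd i).1 g))
    -- `b` is in the ball of `d n`
    have hbn : d n b ≤ R := by
      rcases Nat.lt_succ_iff_lt_or_eq.1 hi with h1 | h1
      · have := hb i h1
        have h3 := le_max_left R (∑ i ∈ Finset.range n, c i * (|R| + d i g))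
        linarith
      · rw [h1] at hi2
        exact hi2
    obtain ⟨j, hj, hj2⟩ := hcon (b * g)
    rcases Nat.lt_succ_iff_lt_or_eq.1 hj with h1 | h1
    · have h2 := hb j h1
      have h3 := hc j b g
      have h4 : c j * (|R| + d j g) ≤ ∑ i ∈ Finset.range n, c i * (|R| + d i g) :=
        Finset.single_le_sum (f := fun i => c i * (|R| + d i g)) (fun i _ => hnn i)
          (Finset.mem_range.2 h1)
      have h5 := le_max_right R (∑ i ∈ Finset.range n, c i * (|R| + d i g))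
      have h6 : c j * (d j (b * g) + d j g) ≤ c j * (|R| + d j g) :=
        mul_le_mul_of_nonneg_left (by linarith [le_abs_self R]) (hc0 j).le
      linarith
    · rw [h1] at hj2
      have h2 := hquo b (b * g) hbn hj2
      rw [inv_mul_cancel_left] at h2
      linarith

/-- a sequence of multipliers that dominates all heat multipliers -/
noncomputable def domin (d : ℕ → G → ℝ) (k : ℕ) (g : G) : ℂ :=
  ((∑ j ∈ Finset.range (k + 1), Real.exp (-(1 / ((k : ℝ) + 1)) * d j g) : ℝ) : ℂ)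

lemma norm_domin (d : ℕ → G → ℝ) (k : ℕ) (g : G) : ‖domin d k g‖ =
    ∑ j ∈ Finset.range (k + 1), Real.exp (-(1 / ((k : ℝ) + 1)) * d j g) := by
  rw [domin, Complex.norm_real, Real.norm_of_nonneg]
  exact Finset.sum_nonneg fun j _ => (Real.exp_pos _).le

lemma thick_domin (d : ℕ → G → ℝ) (hd : ∀ k, QuasiLength (d k))
    (hub : ∀ k, ¬ ∃ C : ℝ, ∀ g, d k g ≤ C) : Thick (domin d) := by
  classical
  intro n T ε hε
  -- `M` is the lower bound which is needed
  obtain ⟨M, hM0, hM⟩ : ∃ M : ℝ, 0 ≤ M ∧ (n + 1 : ℝ) * Real.exp (-(1 / ((n : ℝ) + 1)) * M) < ε := by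
    have hn : (0 : ℝ) < (n : ℝ) + 1 := by positivity
    refine ⟨(n + 1) * ((n + 1) / ε), by positivity, ?_⟩
    have h1 : -(1 / ((n : ℝ) + 1)) * ((n + 1) * ((n + 1) / ε)) = -((n + 1) / ε) := by
      field_simp
    rw [h1, Real.exp_neg, ← div_eq_mul_inv, div_lt_iff₀ (Real.exp_pos _)]
    have h2 := Real.add_one_le_exp (((n : ℝ) + 1) / ε)
    have h3 : ε * (((n : ℝ) + 1) / ε) = n + 1 := by field_simp
    nlinarith
  choose c hc0 hc using fun i => (hd i).exists_pos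
  set R : ℝ := ∑ i ∈ Finset.range (n + 1), c i * (M + ∑ g ∈ T, d i g) with hR
  obtain ⟨h, hh⟩ := exists_all_large d hd hub (n + 1) R
  refine ⟨h, fun k hk g hg => ?_⟩
  have hlow : ∀ j ∈ Finset.range (k + 1), M ≤ d j (h * g) := by
    intro j hj
    have hj' : j < n + 1 := lt_of_lt_of_le (Finset.mem_range.1 hj) (by omega)
    have h1 := hh j hj'
    have h2 := hc j h g
    have h3 : c j * (M + ∑ g ∈ T, d j g) ≤ R :=
      Finset.single_le_sum (f := fun i => c i * (M + ∑ g ∈ T, d i g))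
        (fun i _ => mul_nonneg (hc0 i).le (add_nonneg hM0 (Finset.sum_nonneg fun g _ => (hd i).1 g)))
        (Finset.mem_range.2 hj')
    have h4 : d j g ≤ ∑ g ∈ T, d j g := Finset.single_le_sum (fun g _ => (hd j).1 g) hg
    have h5 : c j * (M + ∑ g ∈ T, d j g) ≤ c j * (d j (h * g) + d j g) := by linarith
    have h6 := le_of_mul_le_mul_left h5 (hc0 j)
    linarith
  rw [norm_domin]
  have hk1 : (0 : ℝ) < (k : ℝ) + 1 := by positivity
  have hkn : (k : ℝ) ≤ n := by exact_mod_cast hk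
  calc ∑ j ∈ Finset.range (k + 1), Real.exp (-(1 / ((k : ℝ) + 1)) * d j (h * g))
      ≤ ∑ j ∈ Finset.range (k + 1), Real.exp (-(1 / ((n : ℝ) + 1)) * M) := by
        refine Finset.sum_le_sum fun j hj => Real.exp_le_exp.2 ?_
        have h1 := hlow j hj
        have h2 : 1 / ((n : ℝ) + 1) ≤ 1 / ((k : ℝ) + 1) :=
          one_div_le_one_div_of_le hk1 (by linarith)
        have h3 : 1 / ((n : ℝ) + 1) * M ≤ 1 / ((k : ℝ) + 1) * d j (h * g) :=
          mul_le_mul h2 h1 hM0 (by positivity)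
        linarith
    _ = (k + 1 : ℝ) * Real.exp (-(1 / ((n : ℝ) + 1)) * M) := by
        rw [Finset.sum_const, Finset.card_range, nsmul_eq_mul]
        push_cast
        ring
    _ ≤ (n + 1 : ℝ) * Real.exp (-(1 / ((n : ℝ) + 1)) * M) :=
        mul_le_mul_of_nonneg_right (by linarith) (Real.exp_pos _).le
    _ < ε := hM

lemma le_domin (d : ℕ → G → ℝ) (hd : ∀ k, QuasiLength (d k)) (j : ℕ) (t : ℝ) (ht : 0 < t) :
    ∃ k, ∀ g, Real.exp (-t * d j g) ≤ ‖domin d k g‖ := by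
  obtain ⟨N, hN⟩ := exists_nat_one_div_lt ht
  refine ⟨N + j, fun g => ?_⟩
  rw [norm_domin]
  have h0 := (hd j).1 g
  have h1 : Real.exp (-(1 / (((N + j : ℕ) : ℝ) + 1)) * d j g) ≤
      ∑ i ∈ Finset.range (N + j + 1), Real.exp (-(1 / (((N + j : ℕ) : ℝ) + 1)) * d i g) :=
    Finset.single_le_sum (f := fun i => Real.exp (-(1 / (((N + j : ℕ) : ℝ) + 1)) * d i g))
      (fun i _ => (Real.exp_pos _).le) (Finset.mem_range.2 (by omega))
  refine le_trans (Real.exp_le_exp.2 ?_) h1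
  have h2 : 1 / (((N + j : ℕ) : ℝ) + 1) ≤ 1 / ((N : ℝ) + 1) :=
    one_div_le_one_div_of_le (by positivity) (by push_cast; linarith [(Nat.cast_nonneg j : (0:ℝ) ≤ j)])
  have h3 : 1 / (((N + j : ℕ) : ℝ) + 1) * d j g ≤ t * d j g :=
    mul_le_mul_of_nonneg_right (by linarith) h0
  linarith

end quasi

end Pool.Agent.KS6_22.HF
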